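import Mathlib

set_option autoImplicit false

/-!
# Contact numbers of totally separable packings: the sharp inequality in every dimension

For a finite set `Z` of centres which is contact separable (`CS`), a positive definite matrix `W` and
`T W Z = |Z| tr W - sum over contacts of uᵀ W u` we prove `T W Z ≥ d |Z| (det W / |Z|)^(1/d)`; for `W = 1` this says
that the number of contacts is at most `d n - d n^((d-1)/d)`.
-/

open scoped Matrix

namespace Pool.Agent.N334.SC

/-- Euclidean `d`-space -/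
abbrev E (d : ℕ) : Type := EuclideanSpace ℝ (Fin d)

variable {d : ℕ}

/-- contact separability in terms of centres -/
def CS (Z : Finset (E d)) : Prop :=
  ∀ x ∈ Z, ∀ u : E d, ‖u‖ = 1 → x + u ∈ Z → ∀ z ∈ Z, inner ℝ (z - x) u ≤ 0 ∨ 1 ≤ inner ℝ (z - x) u

lemma CS.mono {Z W : Finset (E d)} (h : CS Z) (hW : W ⊆ Z) : CS W :=
  fun x hx u hu hxu z hz => h x (hW hx) u hu (hW hxu) z (hW hz)

/-- the quadratic form of `W` -/
noncomputable def qf (W : Matrix (Fin d) (Fin d) ℝ) (u : E d) : ℝ := u.ofLp ⬝ᵥ (W *ᵥ u.ofLp)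

lemma qf_neg (W : Matrix (Fin d) (Fin d) ℝ) (u : E d) : qf W (-u) = qf W u := by
  unfold qf
  simp [Matrix.mulVec_neg]

lemma qf_add_smul (W V : Matrix (Fin d) (Fin d) ℝ) (s : ℝ) (u : E d) :
    qf (W + s • V) u = qf W u + s * qf V u := by
  unfold qf
  rw [Matrix.add_mulVec, Matrix.smul_mulVec, dotProduct_add, dotProduct_smul, smul_eq_mul]

lemma inner_eq_dot (u v : E d) : inner ℝ u v = u.ofLp ⬝ᵥ v.ofLp := by
  rw [EuclideanSpace.inner_eq_star_dotProduct, dotProduct_comm]
  simp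

lemma qf_one (u : E d) : qf 1 u = ‖u‖ ^ 2 := by
  unfold qf
  rw [Matrix.one_mulVec, ← inner_eq_dot, real_inner_self_eq_norm_sq]

lemma qf_vecMulVec (w u : E d) : qf (Matrix.vecMulVec w.ofLp w.ofLp) u = (inner ℝ u w) ^ 2 := by
  unfold qf
  rw [Matrix.vecMulVec_mulVec, inner_eq_dot]
  rw [dotProduct_comm w.ofLp u.ofLp]
  simp [dotProduct_smul, sq]

open Classical in
/-- the sum over ordered contacts with first member in `A`, second in `B` -/
noncomputable def S (W : Matrix (Fin d) (Fin d) ℝ) (A B : Finset (E d)) : ℝ :=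
  ∑ x ∈ A, ∑ y ∈ B, if dist x y = 1 then qf W (y - x) else 0

/-- the functional `T` -/
noncomputable def T (W : Matrix (Fin d) (Fin d) ℝ) (Z : Finset (E d)) : ℝ :=
  (Z.card : ℝ) * W.trace - S W Z Z / 2

lemma S_add_smul (W V : Matrix (Fin d) (Fin d) ℝ) (s : ℝ) (A B : Finset (E d)) :
    S (W + s • V) A B = S W A B + s * S V A B := by
  classical
  unfold S
  rw [Finset.mul_sum, ← Finset.sum_add_distrib]
  refine Finset.sum_congr rfl fun x _ => ?_
  rw [Finset.mul_sum, ← Finset.sum_add_distrib]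
  refine Finset.sum_congr rfl fun y _ => ?_
  split_ifs
  · exact qf_add_smul W V s _
  · simp

lemma T_add_smul (W V : Matrix (Fin d) (Fin d) ℝ) (s : ℝ) (Z : Finset (E d)) :
    T (W + s • V) Z = T W Z + s * T V Z := by
  unfold T
  rw [S_add_smul, Matrix.trace_add, Matrix.trace_smul, smul_eq_mul]
  ring

lemma S_comm (W : Matrix (Fin d) (Fin d) ℝ) (A B : Finset (E d)) : S W A B = S W B A := by
  classical
  unfold S
  rw [Finset.sum_comm]
  refine Finset.sum_congr rfl fun x _ => Finset.sum_congr rfl fun y _ => ?_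
  rw [dist_comm, ← neg_sub, qf_neg]

/-- pairwise obtuse unit vectors -/
lemma obtuse (C : Finset (E d)) (hC : ∀ u ∈ C, ∀ v ∈ C, u ≠ v → inner ℝ u v ≤ 0) (hu : ∀ u ∈ C, ‖u‖ = 1)
    (v : E d) : ∑ u ∈ C, (max (inner ℝ u v) 0) ^ 2 ≤ ‖v‖ ^ 2 := by
  classical
  set s : ℝ := ∑ u ∈ C, (max (inner ℝ u v) 0) ^ 2 with hs
  have hs0 : 0 ≤ s := Finset.sum_nonneg fun _ _ => sq_nonneg _
  set w : E d := ∑ u ∈ C, (max (inner ℝ u v) 0) • u with hw
  have h1 : inner ℝ w v = s := by
    rw [hw, sum_inner, hs]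
    refine Finset.sum_congr rfl fun u _ => ?_
    rw [real_inner_smul_left]
    rcases le_total (inner ℝ u v) 0 with h | h
    · rw [max_eq_right h]; ring
    · rw [max_eq_left h]; ring
  have h2 : ‖w‖ ^ 2 ≤ s := by
    rw [← real_inner_self_eq_norm_sq, hw, sum_inner, hs]
    refine Finset.sum_le_sum fun u hu' => ?_
    rw [inner_sum]
    have : ∑ x ∈ C, inner ℝ (max (inner ℝ u v) 0 • u) (max (inner ℝ x v) 0 • x) ≤
        ∑ x ∈ C, if x = u then (max (inner ℝ u v) 0) ^ 2 else 0 := by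
      refine Finset.sum_le_sum fun x hx => ?_
      rw [real_inner_smul_left, real_inner_smul_right]
      split_ifs with hxu
      · subst hxu
        rw [real_inner_self_eq_norm_sq, hu x hx]
        apply le_of_eq; ring
      · have h3 := hC u hu' x hx (fun h => hxu h.symm)
        have h4 : 0 ≤ max (inner ℝ u v) 0 := le_max_right _ _
        have h5 : 0 ≤ max (inner ℝ x v) 0 := le_max_right _ _
        nlinarith [mul_nonneg h4 h5]
    refine this.trans ?_
    rw [Finset.sum_ite_eq' C u, if_pos hu']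
  have h3 : s ≤ ‖w‖ * ‖v‖ := by rw [← h1]; exact real_inner_le_norm w v
  by_contra hcon
  push Not at hcon
  have h4 : s ^ 2 ≤ ‖w‖ ^ 2 * ‖v‖ ^ 2 := by
    rw [← mul_pow]; exact pow_le_pow_left₀ hs0 h3 2
  have h5 : ‖w‖ ^ 2 * ‖v‖ ^ 2 ≤ s * ‖v‖ ^ 2 := mul_le_mul_of_nonneg_right h2 (sq_nonneg _)
  have h6 : 0 < s := lt_of_le_of_lt (sq_nonneg _) hcon
  nlinarith

open Classical in
/-- the estimate at one ball -/
lemma at_ball {Z : Finset (E d)} (hZ : CS Z) {x : E d} (hx : x ∈ Z) (v : E d) :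
    ∑ y ∈ Z, (if dist x y = 1 then (max (inner ℝ (y - x) v) 0) ^ 2 else 0) ≤ ‖v‖ ^ 2 := by
  rw [← Finset.sum_filter]
  set C : Finset (E d) := (Z.filter (fun y => dist x y = 1)).image (fun y => y - x) with hCdef
  have hmem : ∀ u ∈ C, ‖u‖ = 1 ∧ x + u ∈ Z := by
    intro u hu
    obtain ⟨y, hy, rfl⟩ := Finset.mem_image.mp hu
    obtain ⟨hy1, hy2⟩ := Finset.mem_filter.mp hy
    refine ⟨?_, by simpa using hy1⟩
    rw [← dist_eq_norm, dist_comm]; exact hy2
  have hinj : Set.InjOn (fun y => y - x) (Z.filter (fun y => dist x y = 1) : Set (E d)) :=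
    fun a _ b _ h => sub_left_injective h
  have h1 : ∑ y ∈ Z.filter (fun y => dist x y = 1), (max (inner ℝ (y - x) v) 0) ^ 2 =
      ∑ u ∈ C, (max (inner ℝ u v) 0) ^ 2 := by
    rw [hCdef, Finset.sum_image hinj]
  rw [h1]
  refine obtuse C (fun u hu w hw huw => ?_) (fun u hu => (hmem u hu).1) v
  obtain ⟨hu1, hu2⟩ := hmem u hu
  obtain ⟨hw1, hw2⟩ := hmem w hw
  rcases hZ x hx u hu1 hu2 (x + w) hw2 with h | h
  · rw [add_sub_cancel_left, real_inner_comm] at h; exact h
  · exfalso
    rw [add_sub_cancel_left] at h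
    apply huw
    have h3 : inner ℝ w u = 1 := by
      have := real_inner_le_norm w u
      rw [hw1, hu1] at this
      linarith
    exact ((inner_eq_one_iff_of_norm_eq_one hw1 hu1).mp h3).symm

open Classical in
/-- the positive parts carry half of the sum -/
lemma half_sum (A : Finset (E d)) (v : E d) :
    ∑ x ∈ A, ∑ y ∈ A, (if dist x y = 1 then (inner ℝ (y - x) v) ^ 2 else 0) =
      2 * ∑ x ∈ A, ∑ y ∈ A, (if dist x y = 1 then (max (inner ℝ (y - x) v) 0) ^ 2 else 0) := by
  have h1 : ∑ x ∈ A, ∑ y ∈ A, (if dist x y = 1 then (max (inner ℝ (y - x) v) 0) ^ 2 else 0) =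
      ∑ x ∈ A, ∑ y ∈ A, (if dist x y = 1 then (max (-inner ℝ (y - x) v) 0) ^ 2 else 0) := by
    rw [Finset.sum_comm]
    refine Finset.sum_congr rfl fun x _ => Finset.sum_congr rfl fun y _ => ?_
    rw [dist_comm, ← neg_sub, inner_neg_left]
  rw [two_mul]
  nth_rewrite 2 [h1]
  rw [← Finset.sum_add_distrib]
  refine Finset.sum_congr rfl fun x _ => ?_
  rw [← Finset.sum_add_distrib]
  refine Finset.sum_congr rfl fun y _ => ?_
  split_ifs
  · rcases le_total (inner ℝ (y - x) v) 0 with h | h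
    · rw [max_eq_right h, max_eq_left (by linarith)]; ring
    · rw [max_eq_left h, max_eq_right (by linarith)]; ring
  · ring

open Classical in
/-- outgoing contacts in a direction `k` are paid for -/
lemma outward {Z A : Finset (E d)} (hZ : CS Z) (hA : A ⊆ Z) {k : E d} (hk : ‖k‖ = 1) (v : E d) :
    ((A.filter (fun x => x + k ∈ Z \ A)).card : ℝ) * (inner ℝ k v) ^ 2 ≤
      (A.card : ℝ) * ‖v‖ ^ 2 -
        (∑ x ∈ A, ∑ y ∈ A, (if dist x y = 1 then (inner ℝ (y - x) v) ^ 2 else 0)) / 2 := by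
  have key : ∀ v : E d, ((A.filter (fun x => x + k ∈ Z \ A)).card : ℝ) * (max (inner ℝ k v) 0) ^ 2 ≤
      (A.card : ℝ) * ‖v‖ ^ 2 -
        (∑ x ∈ A, ∑ y ∈ A, (if dist x y = 1 then (inner ℝ (y - x) v) ^ 2 else 0)) / 2 := by
    intro v
    rw [half_sum]
    have h1 : ∀ x ∈ A, (∑ y ∈ A, (if dist x y = 1 then (max (inner ℝ (y - x) v) 0) ^ 2 else 0)) +
        (if x + k ∈ Z \ A then (max (inner ℝ k v) 0) ^ 2 else 0) ≤ ‖v‖ ^ 2 := by
      intro x hx
      refine le_trans ?_ (at_ball hZ (hA hx) v)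
      rw [← Finset.sum_sdiff hA, add_comm]
      refine add_le_add_left ?_ _
      split_ifs with hxk
      · have h2 := Finset.single_le_sum (s := Z \ A)
          (f := fun y => if dist x y = 1 then (max (inner ℝ (y - x) v) 0) ^ 2 else (0 : ℝ))
          (fun y _ => by positivity) hxk
        refine le_trans ?_ h2
        have h3 : dist x (x + k) = 1 := by simp [hk]
        simp only [h3, if_true, add_sub_cancel_left]
        exact le_rfl
      · exact Finset.sum_nonneg fun y _ => by positivity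
    have h2 := Finset.sum_le_sum h1
    rw [Finset.sum_add_distrib, Finset.sum_const, nsmul_eq_mul, ← Finset.sum_filter, Finset.sum_const,
      nsmul_eq_mul] at h2
    linarith
  rcases le_total (inner ℝ k v) 0 with h | h
  · have h1 := key (-v)
    rw [inner_neg_right, max_eq_left (by linarith), norm_neg, neg_sq] at h1
    have h2 : ∀ x y : E d, (if dist x y = 1 then (inner ℝ (y - x) (-v)) ^ 2 else 0) =
        (if dist x y = 1 then (inner ℝ (y - x) v) ^ 2 else (0 : ℝ)) := by
      intro x y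
      rw [inner_neg_right, neg_sq]
    simp only [h2] at h1
    exact h1
  · have h1 := key v
    rwa [max_eq_left h] at h1

end Pool.Agent.N334.SC
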