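import Pool.Agent.N334.SC.Pack

set_option autoImplicit false

/-!
# Digital packings in `d`-space
-/

open scoped Matrix
open Filter Topology

namespace Pool.Agent.N334.SC

variable {d : ℕ}

/-- the lattice point with natural coordinates w -/
noncomputable def emb (w : Fin d → ℕ) : E d := WithLp.toLp 2 (fun a => (w a : ℝ))

/-- standard unit vector -/
noncomputable def ax (a : Fin d) : E d := EuclideanSpace.single a (1 : ℝ)

lemma emb_apply (w : Fin d → ℕ) (a : Fin d) : emb w a = w a := rfl

lemma ax_norm (a : Fin d) : ‖ax a‖ = 1 := by unfold ax; simp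

lemma emb_injective : Function.Injective (emb : (Fin d → ℕ) → E d) := by
  intro v w h
  ext a
  have := congrArg (fun x : E d => x a) h
  simp only [emb_apply] at this
  exact_mod_cast this

lemma emb_sub_ax {w : Fin d → ℕ} {a : Fin d} (h : 1 ≤ w a) :
    emb (Function.update w a (w a - 1)) + ax a = emb w := by
  ext b
  unfold ax
  rw [PiLp.add_apply, emb_apply, emb_apply, PiLp.single_apply]
  by_cases hb : b = a
  · subst hb
    rw [Function.update_self, if_pos rfl]
    rw [Nat.cast_sub h]; push_cast; ring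
  · rw [Function.update_of_ne hb, if_neg hb, add_zero]

lemma inner_ax (a : Fin d) (p : E d) : inner ℝ (ax a) p = p a := by
  unfold ax
  rw [EuclideanSpace.inner_single_left]; simp

lemma abs_coord_le (p q : E d) (a : Fin d) : |p a - q a| ≤ dist p q := by
  rw [dist_eq_norm, ← Real.norm_eq_abs]
  exact PiLp.norm_apply_le (p - q) a

lemma exists_coord {x y : E d} (h : x ≠ y) : ∃ a, x a ≠ y a := by
  by_contra hcon
  push Not at hcon
  exact h (by ext a; exact hcon a)

lemma IsDigital.packing {X : Finset (E d)} (h : IsDigital X) : IsPacking X := by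
  intro x hx y hy hne
  obtain ⟨a, ha⟩ := exists_coord hne
  obtain ⟨i, hi⟩ := h x hx a
  obtain ⟨j, hj⟩ := h y hy a
  rw [interior_closedBall _ (by norm_num), interior_closedBall _ (by norm_num),
    disjoint_ball_ball_iff (by norm_num) (by norm_num)]
  have h1 := abs_coord_le x y a
  rw [hi, hj] at h1 ha
  have h2 : i ≠ j := fun h => ha (by rw [h])
  have h3 : (1 : ℝ) ≤ |(i : ℝ) - j| := by
    have : (1 : ℤ) ≤ |i - j| := Int.one_le_abs (sub_ne_zero.mpr h2)
    exact_mod_cast this
  linarith

lemma IsDigital.sep {X : Finset (E d)} (h : IsDigital X) : IsTotallySeparable X := by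
  intro x hx y hy hne
  obtain ⟨a, ha⟩ := exists_coord hne
  obtain ⟨i, hi⟩ := h x hx a
  obtain ⟨j, hj⟩ := h y hy a
  have hax : ax a ≠ 0 := by
    intro h; have := ax_norm a; rw [h, norm_zero] at this; norm_num at this
  have hij : i ≠ j := by rintro rfl; exact ha (by rw [hi, hj])
  have hcoord : ∀ (u p : E d), dist p u ≤ 1 / 2 → u a - 1 / 2 ≤ p a ∧ p a ≤ u a + 1 / 2 := by
    intro u p hp
    have := (abs_coord_le p u a).trans hp
    rw [abs_le] at this
    constructor <;> linarith [this.1, this.2]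
  have hcoord' : ∀ (u p : E d), dist p u < 1 / 2 → u a - 1 / 2 < p a ∧ p a < u a + 1 / 2 := by
    intro u p hp
    have := (abs_coord_le p u a).trans_lt hp
    rw [abs_lt] at this
    constructor <;> linarith [this.1, this.2]
  rcases lt_or_gt_of_ne hij with h1 | h1
  · refine ⟨ax a, i + 1 / 2, hax, ?_, ?_, ?_⟩
    · intro p hp
      rw [inner_ax]
      have := (hcoord x p hp).2
      rw [hi] at this; exact this
    · intro p hp
      rw [inner_ax]
      have h2 := (hcoord y p hp).1
      rw [hj] at h2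
      have h3 : (i : ℝ) + 1 ≤ j := by exact_mod_cast h1
      linarith
    · intro z hz
      obtain ⟨k, hk⟩ := h z hz a
      rw [interior_closedBall _ (by norm_num), Set.disjoint_left]
      intro p hp hpu
      rw [Set.mem_ofPred_eq, inner_ax] at hp
      have h2 := hcoord' z p (Metric.mem_ball.mp hpu)
      rw [hp, hk] at h2
      have h3 : (k : ℝ) < i + 1 := by linarith [h2.1]
      have h4 : (i : ℝ) < k := by linarith [h2.2]
      have h3' : k < i + 1 := by exact_mod_cast h3
      have h4' : i < k := by exact_mod_cast h4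
      omega
  · refine ⟨-ax a, -(j + 1 / 2), neg_ne_zero.mpr hax, ?_, ?_, ?_⟩
    · intro p hp
      rw [inner_neg_left, inner_ax]
      have h2 := (hcoord x p hp).1
      rw [hi] at h2
      have h3 : (j : ℝ) + 1 ≤ i := by exact_mod_cast h1
      linarith
    · intro p hp
      rw [inner_neg_left, inner_ax]
      have h2 := (hcoord y p hp).2
      rw [hj] at h2
      linarith
    · intro z hz
      obtain ⟨k, hk⟩ := h z hz a
      rw [interior_closedBall _ (by norm_num), Set.disjoint_left]
      intro p hp hpu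
      rw [Set.mem_ofPred_eq, inner_neg_left, inner_ax, neg_inj] at hp
      have h2 := hcoord' z p (Metric.mem_ball.mp hpu)
      rw [hp, hk] at h2
      have h3 : (k : ℝ) < j + 1 := by linarith [h2.1]
      have h4 : (j : ℝ) < k := by linarith [h2.2]
      have h3' : k < j + 1 := by exact_mod_cast h3
      have h4' : j < k := by exact_mod_cast h4
      omega

/-- the set of centres of a finite set of natural points -/
noncomputable def pts (S : Finset (Fin d → ℕ)) : Finset (E d) := S.map ⟨emb, emb_injective⟩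

lemma pts_digital (S : Finset (Fin d → ℕ)) : IsDigital (pts S) := by
  intro x hx a
  obtain ⟨w, -, rfl⟩ := Finset.mem_map.mp hx
  exact ⟨(w a : ℤ), by simp [emb_apply]⟩

lemma card_pts (S : Finset (Fin d → ℕ)) : (pts S).card = S.card := Finset.card_map _

/-- the discrete box -/
def box (s : Fin d → ℕ) : Finset (Fin d → ℕ) := Fintype.piFinset (fun a => Finset.range (s a))

lemma card_box (s : Fin d → ℕ) : (box s).card = ∏ a, s a := by
  unfold box
  rw [Fintype.card_piFinset]
  simp

/-- down-closed sets of lattice points -/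
def DownClosed (S : Finset (Fin d → ℕ)) : Prop :=
  ∀ w ∈ S, ∀ a, 1 ≤ w a → Function.update w a (w a - 1) ∈ S

lemma box_downClosed (s : Fin d → ℕ) : DownClosed (box s) := by
  intro w hw a ha
  unfold box at hw ⊢
  rw [Fintype.mem_piFinset] at hw ⊢
  intro b
  by_cases hb : b = a
  · subst hb
    rw [Function.update_self]
    have := hw b
    rw [Finset.mem_range] at this ⊢
    omega
  · rw [Function.update_of_ne hb]; exact hw b

lemma sum_update {w : Fin d → ℕ} {a : Fin d} (h : 1 ≤ w a) :
    ∑ b, Function.update w a (w a - 1) b < ∑ b, w b := by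
  apply Finset.sum_lt_sum
  · intro b _
    by_cases hb : b = a
    · subst hb; rw [Function.update_self]; omega
    · rw [Function.update_of_ne hb]
  · exact ⟨a, Finset.mem_univ _, by rw [Function.update_self]; omega⟩

lemma exists_downClosed (s : Fin d → ℕ) : ∀ m ≤ ∏ a, s a,
    ∃ S ⊆ box s, DownClosed S ∧ S.card = (∏ a, s a) - m := by
  intro m
  induction m with
  | zero => intro _; exact ⟨box s, subset_rfl, box_downClosed s, by rw [card_box]; rfl⟩
  | succ m ih =>
    intro hm
    obtain ⟨S, hS, hdc, hcard⟩ := ih (by omega)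
    have hne : S.Nonempty := by
      rw [← Finset.card_pos]; omega
    obtain ⟨v, hv, hmax⟩ := Finset.exists_max_image S (fun w => ∑ b, w b) hne
    refine ⟨S.erase v, (Finset.erase_subset _ _).trans hS, ?_, ?_⟩
    · intro w hw a ha
      rw [Finset.mem_erase] at hw ⊢
      refine ⟨?_, hdc w hw.2 a ha⟩
      intro h
      have h1 := sum_update ha
      rw [h] at h1
      have h2 := hmax w hw.2
      omega
    · rw [Finset.card_erase_of_mem hv, hcard]; omega

/-- the face of the box -/
def face (s : Fin d → ℕ) (a : Fin d) : ℕ := ∏ b ∈ Finset.univ.erase a, s b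

lemma card_zero_coord {s : Fin d → ℕ} {S : Finset (Fin d → ℕ)} (hS : S ⊆ box s) (a : Fin d) :
    (S.filter (fun w => ¬ 1 ≤ w a)).card ≤ face s a := by
  have hsub : S.filter (fun w => ¬ 1 ≤ w a) ⊆
      Fintype.piFinset (fun b => if b = a then {0} else Finset.range (s b)) := by
    intro w hw
    rw [Finset.mem_filter] at hw
    rw [Fintype.mem_piFinset]
    intro b
    by_cases hb : b = a
    · subst hb; rw [if_pos rfl, Finset.mem_singleton]; omega
    · rw [if_neg hb]
      have := hS hw.1
      unfold box at this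
      exact (Fintype.mem_piFinset.mp this) b
  refine (Finset.card_le_card hsub).trans ?_
  rw [Fintype.card_piFinset]
  have : ∀ b : Fin d, (if b = a then ({0} : Finset ℕ) else Finset.range (s b)).card =
      if b = a then 1 else s b := by
    intro b; split_ifs <;> simp
  simp only [this]
  unfold face
  rw [← Finset.mul_prod_erase Finset.univ _ (Finset.mem_univ a), if_pos rfl, one_mul]
  apply le_of_eq
  refine Finset.prod_congr rfl fun b hb => ?_
  rw [if_neg (Finset.ne_of_mem_erase hb)]

lemma contactPairs_finite (X : Finset (E d)) : (contactPairs X).Finite := by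
  classical
  refine ((X ×ˢ X).finite_toSet.image (fun p : E d × E d => s(p.1, p.2))).subset ?_
  rintro e ⟨x, hx, y, hy, -, -, rfl⟩
  exact ⟨(x, y), Finset.mem_coe.mpr (Finset.mk_mem_product hx hy), rfl⟩

lemma digital_contacts {s : Fin d → ℕ} {S : Finset (Fin d → ℕ)} (hS : S ⊆ box s) (hd : DownClosed S) :
    d * S.card ≤ contactNumber (pts S) + ∑ a, face s a := by
  classical
  set P : Finset (Fin d × (Fin d → ℕ)) := (Finset.univ ×ˢ S).filter (fun p => 1 ≤ p.2 p.1) with hP
  set f : Fin d × (Fin d → ℕ) → Sym2 (E d) :=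
    fun p => s(emb (Function.update p.2 p.1 (p.2 p.1 - 1)), emb p.2) with hf
  have hmem : ∀ p ∈ P, p.2 ∈ S ∧ 1 ≤ p.2 p.1 := fun p hp =>
    ⟨(Finset.mem_product.mp (Finset.mem_filter.mp hp).1).2, (Finset.mem_filter.mp hp).2⟩
  have hinj : Set.InjOn f (P : Set (Fin d × (Fin d → ℕ))) := by
    rintro ⟨a, w⟩ hp ⟨a', w'⟩ hp' h
    obtain ⟨-, h1⟩ := hmem _ hp
    obtain ⟨-, h1'⟩ := hmem _ hp'
    simp only at h1 h1'
    simp only [hf, Sym2.eq_iff] at h
    rcases h with ⟨h2, h3⟩ | ⟨h2, h3⟩
    · have h4 := emb_injective h3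
      subst h4
      have h5 := emb_injective h2
      by_contra hne
      have haa : a ≠ a' := by rintro rfl; exact hne rfl
      have h6 := congrFun h5 a
      rw [Function.update_self, Function.update_of_ne haa] at h6
      omega
    · exfalso
      have h4 := emb_injective h2
      have h5 := emb_injective h3
      have h6 := sum_update h1
      have h7 := sum_update h1'
      rw [h4] at h6
      rw [← h5] at h7
      omega
  have hsub : ((P.image f : Finset (Sym2 (E d))) : Set (Sym2 (E d))) ⊆ contactPairs (pts S) := by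
    intro e he
    obtain ⟨⟨a, w⟩, hp, rfl⟩ := Finset.mem_image.mp (Finset.mem_coe.mp he)
    obtain ⟨h0, h1⟩ := hmem _ hp
    simp only at h0 h1
    have h2 := emb_sub_ax h1
    have h3 : dist (emb (Function.update w a (w a - 1))) (emb w) = 1 := by
      rw [← h2]; simp [ax_norm]
    refine ⟨emb (Function.update w a (w a - 1)), Finset.mem_map_of_mem ⟨emb, emb_injective⟩ (hd w h0 a h1),
      emb w, Finset.mem_map_of_mem ⟨emb, emb_injective⟩ h0, ?_, touch_iff.mpr h3.le, rfl⟩
    intro h
    rw [h, dist_self] at h3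
    norm_num at h3
  have h1 : P.card ≤ contactNumber (pts S) := by
    rw [← Finset.card_image_of_injOn hinj, ← Set.ncard_coe_finset]
    exact Set.ncard_le_ncard hsub (contactPairs_finite _)
  have h2 : P.card = ∑ a, (S.filter (fun w => 1 ≤ w a)).card := by
    rw [hP, Finset.card_filter, Finset.sum_product]
    refine Finset.sum_congr rfl fun a _ => ?_
    rw [Finset.card_filter]
  have h3 : ∀ a : Fin d, S.card ≤ (S.filter (fun w => 1 ≤ w a)).card + face s a := by
    intro a
    have h4 := card_zero_coord hS a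
    have h5 : (S.filter (fun w => 1 ≤ w a)).card + (S.filter (fun w => ¬ 1 ≤ w a)).card = S.card :=
      Finset.card_filter_add_card_filter_not (fun w : Fin d → ℕ => 1 ≤ w a)
    omega
  have h4 : ∑ _a : Fin d, S.card ≤ ∑ a : Fin d, ((S.filter (fun w => 1 ≤ w a)).card + face s a) :=
    Finset.sum_le_sum fun a _ => h3 a
  rw [Finset.sum_const, Finset.card_univ, Fintype.card_fin, smul_eq_mul, Finset.sum_add_distrib, ← h2] at h4
  omega

/-- the contact numbers of totally separable packings of `n` balls of diameter one in `d`-space -/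
def sepNumbers (d n : ℕ) : Set ℕ :=
  {m | ∃ X : Finset (E d), X.card = n ∧ IsPacking X ∧ IsTotallySeparable X ∧ contactNumber X = m}

/-- the contact numbers of digital packings of `n` balls of diameter one in `d`-space -/
def digNumbers (d n : ℕ) : Set ℕ :=
  {m | ∃ X : Finset (E d), X.card = n ∧ IsDigital X ∧ contactNumber X = m}

/-- the largest contact number of a totally separable packing -/
noncomputable def cSep (d n : ℕ) : ℕ := sSup (sepNumbers d n)

/-- the largest contact number of a digital packing -/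
noncomputable def cDig (d n : ℕ) : ℕ := sSup (digNumbers d n)

lemma dig_sub_sep (d n : ℕ) : digNumbers d n ⊆ sepNumbers d n := by
  rintro m ⟨X, h1, h2, h3⟩
  exact ⟨X, h1, h2.packing, h2.sep, h3⟩

lemma le_of_mem {d n m : ℕ} (hd : 1 ≤ d) (hn : 1 ≤ n) (hm : m ∈ sepNumbers d n) :
    (m : ℝ) ≤ d * n - d * (n : ℝ) ^ (((d : ℝ) - 1) / d) := by
  obtain ⟨X, hc, hp, hs, rfl⟩ := hm
  have hne : X.Nonempty := by rw [← Finset.card_pos]; omega
  have := contacts_le hd hp hs hne
  rwa [hc] at this

lemma bdd {d n : ℕ} (hd : 1 ≤ d) (hn : 1 ≤ n) : BddAbove (sepNumbers d n) := by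
  refine ⟨d * n, fun m hm => ?_⟩
  have h := le_of_mem hd hn hm
  have h1 : 0 ≤ (d : ℝ) * (n : ℝ) ^ (((d : ℝ) - 1) / d) := by positivity
  have h2 : (m : ℝ) ≤ ((d * n : ℕ) : ℝ) := by push_cast; linarith
  exact_mod_cast h2

lemma exists_digital {d n : ℕ} (s : Fin d → ℕ) (hk : n ≤ ∏ a, s a) :
    ∃ m ∈ digNumbers d n, d * n ≤ m + ∑ a, face s a := by
  obtain ⟨S, hS, hdc, hc⟩ := exists_downClosed s ((∏ a, s a) - n) (by omega)
  have hc' : S.card = n := by omega
  refine ⟨_, ⟨pts S, by rw [card_pts, hc'], pts_digital S, rfl⟩, ?_⟩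
  have := digital_contacts hS hdc
  rw [hc'] at this
  exact this

lemma digNumbers_nonempty {d n : ℕ} (hd : 1 ≤ d) (hn : 1 ≤ n) : (digNumbers d n).Nonempty := by
  obtain ⟨m, hm, -⟩ := exists_digital (d := d) (n := n) (fun _ => n) (by
    rw [Finset.prod_const, Finset.card_univ, Fintype.card_fin]
    calc n = n ^ 1 := (pow_one n).symm
      _ ≤ n ^ d := Nat.pow_le_pow_right hn hd)
  exact ⟨m, hm⟩

lemma isGreatest_sep {d n : ℕ} (hd : 1 ≤ d) (hn : 1 ≤ n) : IsGreatest (sepNumbers d n) (cSep d n) :=
  ⟨Nat.sSup_mem ((digNumbers_nonempty hd hn).mono (dig_sub_sep d n)) (bdd hd hn),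
    fun _ hm => le_csSup (bdd hd hn) hm⟩

lemma isGreatest_dig {d n : ℕ} (hd : 1 ≤ d) (hn : 1 ≤ n) : IsGreatest (digNumbers d n) (cDig d n) :=
  ⟨Nat.sSup_mem (digNumbers_nonempty hd hn) ((bdd hd hn).mono (dig_sub_sep d n)),
    fun _ hm => le_csSup ((bdd hd hn).mono (dig_sub_sep d n)) hm⟩

lemma dig_le_sep {d n : ℕ} (hd : 1 ≤ d) (hn : 1 ≤ n) : cDig d n ≤ cSep d n :=
  (isGreatest_sep hd hn).2 (dig_sub_sep d n (isGreatest_dig hd hn).1)

lemma sep_le {d n : ℕ} (hd : 1 ≤ d) (hn : 1 ≤ n) :
    (cSep d n : ℝ) ≤ d * n - d * (n : ℝ) ^ (((d : ℝ) - 1) / d) :=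
  le_of_mem hd hn (isGreatest_sep hd hn).1

lemma box_bound {d n : ℕ} (hd : 1 ≤ d) (hn : 1 ≤ n) (s : Fin d → ℕ) (hs : n ≤ ∏ a, s a) :
    d * n ≤ cDig d n + ∑ a, face s a := by
  obtain ⟨m, hm, h⟩ := exists_digital s hs
  have := (isGreatest_dig hd hn).2 hm
  omega

/-- exact values below boxes -/
lemma exact_box {d n : ℕ} (hd : 1 ≤ d) (hn : 1 ≤ n) (s : Fin d → ℕ) (hs : n ≤ ∏ a, s a)
    (hf : ((∑ a, face s a : ℕ) : ℝ) < d * (n : ℝ) ^ (((d : ℝ) - 1) / d) + 1) :
    cSep d n = cDig d n ∧ cSep d n + ∑ a, face s a = d * n := by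
  have h1 := sep_le hd hn
  have h2 := box_bound hd hn s hs
  have h3 := dig_le_sep hd hn
  have h4 : ((cSep d n + ∑ a, face s a : ℕ) : ℝ) < ((d * n + 1 : ℕ) : ℝ) := by
    rw [Nat.cast_add (cSep d n)]
    push_cast at hf ⊢
    linarith
  have h5 : cSep d n + ∑ a, face s a < d * n + 1 := by exact_mod_cast h4
  omega

end Pool.Agent.N334.SC
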