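import Pool.Agent.N334.SC.Digital

set_option autoImplicit false

/-!
# Consequences of the sharp bound: exact values and the limit in every dimension
-/

open Filter Topology

namespace Pool.Agent.N334.SC

lemma face_const (d k : ℕ) (a : Fin d) : face (fun _ => k) a = k ^ (d - 1) := by
  unfold face
  rw [Finset.prod_const, Finset.card_erase_of_mem (Finset.mem_univ a), Finset.card_univ, Fintype.card_fin]

lemma sum_face_const (d k : ℕ) : ∑ a : Fin d, face (fun _ => k) a = d * k ^ (d - 1) := by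
  simp only [face_const]
  rw [Finset.sum_const, Finset.card_univ, Fintype.card_fin, smul_eq_mul]

lemma rpow_cube {d k : ℕ} (hd : 1 ≤ d) : ((k ^ d : ℕ) : ℝ) ^ (((d : ℝ) - 1) / d) = (k : ℝ) ^ (d - 1) := by
  have hd' : (d : ℝ) ≠ 0 := by positivity
  rw [Nat.cast_pow, ← Real.rpow_natCast (k : ℝ) d, ← Real.rpow_mul (Nat.cast_nonneg k),
    ← Real.rpow_natCast (k : ℝ) (d - 1)]
  congr 1
  rw [Nat.cast_sub hd]
  field_simp
  push_cast
  ring

/-- cubes -/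
lemma exact_cube {d k : ℕ} (hd : 1 ≤ d) (hk : 1 ≤ k) :
    cSep d (k ^ d) = cDig d (k ^ d) ∧ cSep d (k ^ d) + d * k ^ (d - 1) = d * k ^ d := by
  have h := exact_box (n := k ^ d) hd (Nat.one_le_pow _ _ hk) (fun _ => k) (by simp) (by
    rw [sum_face_const, rpow_cube hd]
    push_cast
    linarith)
  rwa [sum_face_const] at h

/-- the gap for every `n` -/
lemma dig_ge {d n : ℕ} (hd : 1 ≤ d) (hn : 1 ≤ n) :
    (d : ℝ) * n - cDig d n ≤ d * ((n : ℝ) ^ ((1 : ℝ) / d) + 1) ^ (d - 1) := by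
  have hd' : (d : ℝ) ≠ 0 := by positivity
  set k := ⌈(n : ℝ) ^ ((1 : ℝ) / d)⌉₊ with hk
  have hx : 0 ≤ (n : ℝ) ^ ((1 : ℝ) / d) := by positivity
  have hk1 : (n : ℝ) ^ ((1 : ℝ) / d) ≤ k := Nat.le_ceil _
  have hk2 : (k : ℝ) < (n : ℝ) ^ ((1 : ℝ) / d) + 1 := Nat.ceil_lt_add_one hx
  have hnk : n ≤ k ^ d := by
    have h1 : ((n : ℝ) ^ ((1 : ℝ) / d)) ^ d = n := by
      rw [← Real.rpow_natCast, ← Real.rpow_mul (Nat.cast_nonneg n), one_div_mul_cancel hd', Real.rpow_one]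
    have h2 : (n : ℝ) ≤ (k : ℝ) ^ d := by
      rw [← h1]; exact pow_le_pow_left₀ hx hk1 d
    exact_mod_cast h2
  have h := box_bound hd hn (fun _ => k) (by simpa using hnk)
  rw [sum_face_const] at h
  have h3 : (d : ℝ) * n ≤ cDig d n + d * (k : ℝ) ^ (d - 1) := by exact_mod_cast h
  have h4 : (k : ℝ) ^ (d - 1) ≤ ((n : ℝ) ^ ((1 : ℝ) / d) + 1) ^ (d - 1) :=
    pow_le_pow_left₀ (Nat.cast_nonneg k) hk2.le _
  have h5 : (d : ℝ) * (k : ℝ) ^ (d - 1) ≤ d * ((n : ℝ) ^ ((1 : ℝ) / d) + 1) ^ (d - 1) :=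
    mul_le_mul_of_nonneg_left h4 (Nat.cast_nonneg d)
  linarith

/-- the limit in every dimension -/
lemma tendsto_all {d : ℕ} (hd : 1 ≤ d) :
    Tendsto (fun n : ℕ => ((d : ℝ) * n - cSep d n) / (n : ℝ) ^ (((d : ℝ) - 1) / d)) atTop (𝓝 d) := by
  have hd' : (d : ℝ) ≠ 0 := by positivity
  have hdp : (0 : ℝ) < d := by exact_mod_cast hd
  have hlow : ∀ᶠ n : ℕ in atTop, (d : ℝ) ≤ ((d : ℝ) * n - cSep d n) / (n : ℝ) ^ (((d : ℝ) - 1) / d) := by
    filter_upwards [eventually_ge_atTop 1] with n hn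
    have hn0 : (0 : ℝ) < n := by exact_mod_cast hn
    rw [le_div_iff₀ (Real.rpow_pos_of_pos hn0 _)]
    have := sep_le hd hn
    linarith
  have hup : ∀ᶠ n : ℕ in atTop, ((d : ℝ) * n - cSep d n) / (n : ℝ) ^ (((d : ℝ) - 1) / d) ≤
      d * (1 + (n : ℝ) ^ (-((1 : ℝ) / d))) ^ (d - 1) := by
    filter_upwards [eventually_ge_atTop 1] with n hn
    have hn0 : (0 : ℝ) < n := by exact_mod_cast hn
    rw [div_le_iff₀ (Real.rpow_pos_of_pos hn0 _)]
    have h1 := dig_ge hd hn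
    have h2 : (cDig d n : ℝ) ≤ cSep d n := by exact_mod_cast dig_le_sep hd hn
    have h3 : (n : ℝ) ^ (((d : ℝ) - 1) / d) = ((n : ℝ) ^ ((1 : ℝ) / d)) ^ (d - 1) := by
      rw [← Real.rpow_natCast, ← Real.rpow_mul hn0.le, Nat.cast_sub hd]
      congr 1
      push_cast
      ring
    have h4 : ((1 : ℝ) + (n : ℝ) ^ (-((1 : ℝ) / d))) * (n : ℝ) ^ ((1 : ℝ) / d) = (n : ℝ) ^ ((1 : ℝ) / d) + 1 := by
      rw [add_mul, one_mul, ← Real.rpow_add hn0]
      simp
    rw [h3, mul_assoc, ← mul_pow, h4]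
    linarith
  have hlim : Tendsto (fun n : ℕ => (d : ℝ) * (1 + (n : ℝ) ^ (-((1 : ℝ) / d))) ^ (d - 1)) atTop (𝓝 d) := by
    have h1 : Tendsto (fun n : ℕ => (n : ℝ) ^ (-((1 : ℝ) / d))) atTop (𝓝 0) :=
      (tendsto_rpow_neg_atTop (by positivity)).comp tendsto_natCast_atTop_atTop
    have h2 := ((h1.const_add 1).pow (d - 1)).const_mul (d : ℝ)
    simpa using h2
  exact tendsto_of_tendsto_of_tendsto_of_le_of_le' tendsto_const_nhds hlim hlow hup

lemma lt_rpow_two_thirds {x n : ℝ} (hn : 0 < n) (h : x ^ 3 < n ^ 2) : x < n ^ ((((3 : ℕ) : ℝ) - 1) / ((3 : ℕ) : ℝ)) := by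
  have e : (n ^ ((((3 : ℕ) : ℝ) - 1) / ((3 : ℕ) : ℝ))) ^ 3 = n ^ 2 := by
    rw [← Real.rpow_natCast, ← Real.rpow_mul hn.le, ← Real.rpow_natCast]
    norm_num
  refine lt_of_pow_lt_pow_left₀ 3 (by positivity) ?_
  rw [e]; exact h

lemma sum_face_three (a b c : ℕ) : ∑ i, face ![a, b, c] i = b * c + a * c + a * b := by
  have h0 : (Finset.univ : Finset (Fin 3)).erase 0 = {1, 2} := by decide
  have h1 : (Finset.univ : Finset (Fin 3)).erase 1 = {0, 2} := by decide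
  have h2 : (Finset.univ : Finset (Fin 3)).erase 2 = {0, 1} := by decide
  rw [Fin.sum_univ_three]
  unfold face
  rw [h0, h1, h2, Finset.prod_pair (by decide), Finset.prod_pair (by decide), Finset.prod_pair (by decide)]
  simp

/-- exact values in three-space below a box -/
lemma exact_three {n a b c : ℕ} (hn : 1 ≤ n) (hle : n ≤ a * b * c) {x : ℝ} (hx : x ^ 3 < (n : ℝ) ^ 2)
    (hs : ((b * c + a * c + a * b : ℕ) : ℝ) ≤ 3 * x + 1) :
    cSep 3 n = cDig 3 n ∧ cSep 3 n + (b * c + a * c + a * b) = 3 * n := by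
  have hn0 : (0 : ℝ) < n := by exact_mod_cast hn
  have h := exact_box (d := 3) (n := n) (by norm_num) hn ![a, b, c] (by
    rw [Fin.prod_univ_three]; simpa using hle) (by
    rw [sum_face_three]
    have := lt_rpow_two_thirds hn0 hx
    push_cast at hs this ⊢
    linarith)
  rwa [sum_face_three] at h

/-- just below `k * k * k` -/
lemma exact_A {k j : ℕ} (h : 2 * j < k) :
    cSep 3 (k ^ 3 - j) = cDig 3 (k ^ 3 - j) ∧ cSep 3 (k ^ 3 - j) + 3 * k ^ 2 = 3 * (k ^ 3 - j) := by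
  have hk : 1 ≤ k := by omega
  have hjk : j < k ^ 3 := by
    have : k ^ 1 ≤ k ^ 3 := Nat.pow_le_pow_right hk (by norm_num)
    rw [pow_one] at this
    omega
  have hk' : (1 : ℝ) ≤ k := by exact_mod_cast hk
  have hj' : 2 * (j : ℝ) + 1 ≤ k := by exact_mod_cast h
  have hj0 : (0 : ℝ) ≤ j := Nat.cast_nonneg j
  have h1 := exact_three (n := k ^ 3 - j) (a := k) (b := k) (c := k) (x := (k : ℝ) ^ 2 - 1 / 3) (by omega)
    (by have : k * k * k = k ^ 3 := by ring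
        omega) (by
      rw [Nat.cast_sub hjk.le]
      push_cast
      have hk3 : 0 ≤ (k : ℝ) ^ 3 := by positivity
      nlinarith [mul_nonneg hk3 (sub_nonneg.mpr hj'), sq_nonneg (j : ℝ),
        mul_nonneg (sq_nonneg (k : ℝ)) (sub_nonneg.mpr hk')]) (by
      push_cast; nlinarith)
  have e : k * k + k * k + k * k = 3 * k ^ 2 := by ring
  rwa [e] at h1

/-- just below `k * k * (k + 1)` -/
lemma exact_B {k j : ℕ} (hk : 1 ≤ k) (h : 3 * j ≤ k) :
    cSep 3 (k ^ 2 * (k + 1) - j) = cDig 3 (k ^ 2 * (k + 1) - j) ∧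
      cSep 3 (k ^ 2 * (k + 1) - j) + (3 * k ^ 2 + 2 * k) = 3 * (k ^ 2 * (k + 1) - j) := by
  have hjk : j < k ^ 2 * (k + 1) := by
    have : k * 1 ≤ k ^ 2 * (k + 1) := by nlinarith [Nat.zero_le (k ^ 3), Nat.zero_le k]
    omega
  have hk' : (1 : ℝ) ≤ k := by exact_mod_cast hk
  have hj' : 3 * (j : ℝ) ≤ k := by exact_mod_cast h
  have hj0 : (0 : ℝ) ≤ j := Nat.cast_nonneg j
  have h1 := exact_three (n := k ^ 2 * (k + 1) - j) (a := k) (b := k) (c := k + 1)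
    (x := (k : ℝ) ^ 2 + (2 * k - 1) / 3) (by omega)
    (by have : k * k * (k + 1) = k ^ 2 * (k + 1) := by ring
        omega) (by
      rw [Nat.cast_sub hjk.le]
      push_cast
      have hk3 : 0 ≤ (k : ℝ) ^ 2 * (k + 1) := by positivity
      nlinarith [mul_nonneg hk3 (sub_nonneg.mpr hj'), sq_nonneg (j : ℝ),
        mul_nonneg (sq_nonneg (k : ℝ)) (sub_nonneg.mpr hk'), mul_nonneg hj0 (sub_nonneg.mpr hk')]) (by
      push_cast; nlinarith)
  have e : k * (k + 1) + k * (k + 1) + k * k = 3 * k ^ 2 + 2 * k := by ring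
  rwa [e] at h1

/-- just below `k * (k + 1) * (k + 1)` -/
lemma exact_C {k j : ℕ} (hk : 1 ≤ k) (h : 3 * j ≤ k) :
    cSep 3 (k * (k + 1) ^ 2 - j) = cDig 3 (k * (k + 1) ^ 2 - j) ∧
      cSep 3 (k * (k + 1) ^ 2 - j) + (3 * k ^ 2 + 4 * k + 1) = 3 * (k * (k + 1) ^ 2 - j) := by
  have hjk : j < k * (k + 1) ^ 2 := by
    have : k * 1 ≤ k * (k + 1) ^ 2 := Nat.mul_le_mul_left k (Nat.one_le_pow _ _ (by omega))
    omega
  have hk' : (1 : ℝ) ≤ k := by exact_mod_cast hk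
  have hj' : 3 * (j : ℝ) ≤ k := by exact_mod_cast h
  have hj0 : (0 : ℝ) ≤ j := Nat.cast_nonneg j
  have h1 := exact_three (n := k * (k + 1) ^ 2 - j) (a := k) (b := k + 1) (c := k + 1)
    (x := (k : ℝ) ^ 2 + 4 * k / 3) (by omega)
    (by have : k * (k + 1) * (k + 1) = k * (k + 1) ^ 2 := by ring
        omega) (by
      rw [Nat.cast_sub hjk.le]
      push_cast
      have hk3 : 0 ≤ (k : ℝ) * (k + 1) ^ 2 := by positivity
      nlinarith [mul_nonneg hk3 (sub_nonneg.mpr hj'), sq_nonneg (j : ℝ),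
        mul_nonneg (sq_nonneg (k : ℝ)) (sub_nonneg.mpr hk'), mul_nonneg hj0 (sub_nonneg.mpr hk')]) (by
      push_cast; nlinarith)
  have e : (k + 1) * (k + 1) + k * (k + 1) + k * (k + 1) = 3 * k ^ 2 + 4 * k + 1 := by ring
  rwa [e] at h1

end Pool.Agent.N334.SC
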