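import Pool.Agent.N334.SC.Core

set_option autoImplicit false

open scoped Matrix

namespace Pool.Agent.N334.SC

variable {d : ℕ}

/-- AM-GM for positive definite matrices -/
lemma amgm (W : Matrix (Fin d) (Fin d) ℝ) (hW : W.PosDef) :
    (d : ℝ) * W.det ^ ((1 : ℝ) / d) ≤ W.trace := by
  rcases Nat.eq_zero_or_pos d with h0 | hd
  · subst h0
    simp [Matrix.trace]
  · have hd' : (0 : ℝ) < d := by exact_mod_cast hd
    have hH := hW.isHermitian
    have h1 : W.det = ∏ i, hH.eigenvalues i := by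
      have := hH.det_eq_prod_eigenvalues
      simpa using this
    have h2 : W.trace = ∑ i, hH.eigenvalues i := by
      have := hH.trace_eq_sum_eigenvalues
      simpa using this
    have hpos : ∀ i, 0 < hH.eigenvalues i := fun i => hW.eigenvalues_pos i
    have h4 := Real.geom_mean_le_arith_mean (Finset.univ : Finset (Fin d)) (fun _ => (1 : ℝ))
      hH.eigenvalues (fun _ _ => zero_le_one) (by simp [hd]) (fun i _ => (hpos i).le)
    simp only [Real.rpow_one, Finset.sum_const, Finset.card_univ, Fintype.card_fin, nsmul_eq_mul,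
      mul_one, one_mul] at h4
    rw [← h1, ← h2, le_div_iff₀ hd'] at h4
    rw [one_div]
    linarith

/-- quadratic values -/
lemma posDef_pos {W : Matrix (Fin d) (Fin d) ℝ} (hW : W.PosDef) {x : Fin d → ℝ} (hx : x ≠ 0) :
    0 < x ⬝ᵥ (W *ᵥ x) := by
  have := (Matrix.posDef_iff_dotProduct_mulVec.mp hW).2 hx
  simpa using this

lemma symm_dot {W : Matrix (Fin d) (Fin d) ℝ} (hW : W.IsHermitian) (x y : Fin d → ℝ) :
    x ⬝ᵥ (W *ᵥ y) = y ⬝ᵥ (W *ᵥ x) := by
  have ht : W.transpose = W := by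
    have := hW.eq
    rwa [Matrix.conjTranspose_eq_transpose_of_trivial] at this
  rw [Matrix.dotProduct_mulVec, ← Matrix.mulVec_transpose, ht, dotProduct_comm]

/-- the rank one part of `W` in the direction `h` -/
noncomputable def V1 (W : Matrix (Fin d) (Fin d) ℝ) (h : Fin d → ℝ) : Matrix (Fin d) (Fin d) ℝ :=
  (h ⬝ᵥ (W *ᵥ h))⁻¹ • Matrix.vecMulVec (W *ᵥ h) (W *ᵥ h)

lemma V1_quad (W : Matrix (Fin d) (Fin d) ℝ) (h x : Fin d → ℝ) :
    x ⬝ᵥ (V1 W h *ᵥ x) = (h ⬝ᵥ (W *ᵥ h))⁻¹ * (x ⬝ᵥ (W *ᵥ h)) ^ 2 := by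
  unfold V1
  rw [Matrix.smul_mulVec, dotProduct_smul, Matrix.vecMulVec_mulVec, smul_eq_mul]
  congr 1
  rw [dotProduct_comm (W *ᵥ h) x]
  simp [dotProduct_smul, sq]

lemma posDef_s {W : Matrix (Fin d) (Fin d) ℝ} (hW : W.PosDef) {h : Fin d → ℝ} (hh : h ≠ 0) {s : ℝ}
    (hs : 0 < s) : (W + (s - 1) • V1 W h).PosDef := by
  have hc := posDef_pos hW hh
  have hH := hW.isHermitian
  rw [Matrix.posDef_iff_dotProduct_mulVec]
  refine ⟨?_, ?_⟩
  · refine hH.add ?_
    unfold V1
    ext i j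
    simp [Matrix.vecMulVec_apply, mul_comm]
  · intro x hx
    simp only [star_trivial]
    rw [Matrix.add_mulVec, Matrix.smul_mulVec, dotProduct_add, dotProduct_smul, V1_quad, smul_eq_mul]
    set c := h ⬝ᵥ (W *ᵥ h) with hcdef
    set p := x ⬝ᵥ (W *ᵥ h) with hp
    by_cases hp0 : p = 0
    · rw [hp0]
      have := posDef_pos hW hx
      simpa using this
    · -- Cauchy-Schwarz
      have h1 : 0 ≤ (x - (p / c) • h) ⬝ᵥ (W *ᵥ (x - (p / c) • h)) := by
        by_cases h0 : x - (p / c) • h = 0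
        · rw [h0]; simp
        · exact (posDef_pos hW h0).le
      have h2 : (x - (p / c) • h) ⬝ᵥ (W *ᵥ (x - (p / c) • h)) = x ⬝ᵥ (W *ᵥ x) - c⁻¹ * p ^ 2 := by
        rw [Matrix.mulVec_sub, Matrix.mulVec_smul, dotProduct_sub, sub_dotProduct, dotProduct_smul,
          sub_dotProduct, smul_dotProduct, smul_dotProduct, symm_dot hH h x, ← hp, ← hcdef]
        simp only [smul_eq_mul]
        field_simp
        ring
      rw [h2] at h1
      have h3 : 0 < s * (c⁻¹ * p ^ 2) := by positivity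
      linarith

lemma det_s {W : Matrix (Fin d) (Fin d) ℝ} (hW : W.PosDef) {h : Fin d → ℝ} (hh : h ≠ 0) (s : ℝ) :
    (W + (s - 1) • V1 W h).det = s * W.det := by
  have hc := posDef_pos hW hh
  have h1 : W + (s - 1) • V1 W h =
      W * (1 + Matrix.replicateCol Unit (((s - 1) * (h ⬝ᵥ (W *ᵥ h))⁻¹) • h) *
        Matrix.replicateRow Unit (W *ᵥ h)) := by
    rw [← Matrix.vecMulVec_eq, Matrix.mul_add, Matrix.mul_one, Matrix.mul_vecMulVec, Matrix.mulVec_smul]
    unfold V1
    congr 1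
    ext i j
    simp [Matrix.vecMulVec_apply]
    ring
  rw [h1, Matrix.det_mul, Matrix.det_one_add_replicateCol_mul_replicateRow, dotProduct_smul,
    dotProduct_comm (W *ᵥ h) h, smul_eq_mul]
  have hc' := hc.ne'
  field_simp
  ring

lemma qf_V1_self {W : Matrix (Fin d) (Fin d) ℝ} (hW : W.PosDef) {h : E d} (hh : h.ofLp ≠ 0) :
    qf (V1 W h.ofLp) h = qf W h := by
  have hc := posDef_pos hW hh
  unfold qf
  rw [V1_quad]
  have hc' := hc.ne'
  field_simp

open Classical in
/-- cutting along a contact plane -/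
lemma split {Z : Finset (E d)} (hZ : CS Z) {x0 h : E d} (hx0 : x0 ∈ Z) (hh : ‖h‖ = 1) (hx1 : x0 + h ∈ Z)
    (W : Matrix (Fin d) (Fin d) ℝ) :
    ∃ A ⊆ Z, x0 ∈ A ∧ x0 + h ∈ Z \ A ∧
      (A.filter (fun x => x + h ∈ Z \ A)).card =
        ((Z \ A).filter (fun x => x + (-h) ∈ Z \ (Z \ A))).card ∧
      ∀ W : Matrix (Fin d) (Fin d) ℝ, T W Z = T W A + T W (Z \ A) -
        ((A.filter (fun x => x + h ∈ Z \ A)).card : ℝ) * qf W h := by
  set A : Finset (E d) := Z.filter (fun z => inner ℝ (z - x0) h ≤ 0) with hA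
  have hAZ : A ⊆ Z := Finset.filter_subset _ _
  have hAmem : ∀ z ∈ A, inner ℝ (z - x0) h ≤ 0 := fun z hz => (Finset.mem_filter.mp hz).2
  have hBmem : ∀ z ∈ Z \ A, 1 ≤ inner ℝ (z - x0) h := by
    intro z hz
    obtain ⟨h1, h2⟩ := Finset.mem_sdiff.mp hz
    rcases hZ x0 hx0 h hh hx1 z h1 with h3 | h3
    · exact absurd (Finset.mem_filter.mpr ⟨h1, h3⟩) h2
    · exact h3
  have hcross : ∀ x ∈ A, ∀ y ∈ Z \ A, dist x y = 1 → y = x + h := by
    intro x hx y hy hxy
    have h1 := hAmem x hx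
    have h2 := hBmem y hy
    have h3 : 1 ≤ inner ℝ (y - x) h := by
      have : y - x = (y - x0) - (x - x0) := by abel
      rw [this, inner_sub_left]; linarith
    have h4 : ‖y - x‖ = 1 := by rw [← dist_eq_norm, dist_comm]; exact hxy
    have h5 : inner ℝ (y - x) h = 1 := by
      have := real_inner_le_norm (y - x) h
      rw [h4, hh] at this
      linarith
    have h6 := (inner_eq_one_iff_of_norm_eq_one h4 hh).mp h5
    rw [← h6]; abel
  have hx0A : x0 ∈ A := Finset.mem_filter.mpr ⟨hx0, by simp⟩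
  have hx1B : x0 + h ∈ Z \ A := by
    refine Finset.mem_sdiff.mpr ⟨hx1, fun hcon => ?_⟩
    have := hAmem _ hcon
    rw [add_sub_cancel_left, real_inner_self_eq_norm_sq, hh] at this
    norm_num at this
  refine ⟨A, hAZ, hx0A, hx1B, ?_, fun W => ?_⟩
  · rw [Finset.sdiff_sdiff_eq_self hAZ]
    refine Finset.card_bij (fun x _ => x + h) ?_ ?_ ?_
    · intro x hx
      obtain ⟨h1, h2⟩ := Finset.mem_filter.mp hx
      refine Finset.mem_filter.mpr ⟨h2, ?_⟩
      rwa [add_neg_cancel_right]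
    · intro x _ y _ hxy
      exact add_right_cancel hxy
    · intro y hy
      obtain ⟨h1, h2⟩ := Finset.mem_filter.mp hy
      refine ⟨y + -h, Finset.mem_filter.mpr ⟨h2, ?_⟩, by abel⟩
      rwa [neg_add_cancel_right]
  · have hcard : (Z.card : ℝ) = A.card + (Z \ A).card := by
      rw [← Nat.cast_add, add_comm, Finset.card_sdiff_add_card_eq_card hAZ]
    have hS : S W Z Z = S W A A + S W A (Z \ A) + (S W (Z \ A) A + S W (Z \ A) (Z \ A)) := by
      have hx : ∀ f : E d → ℝ, ∑ x ∈ Z, f x = ∑ x ∈ A, f x + ∑ x ∈ Z \ A, f x := by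
        intro f; rw [add_comm, Finset.sum_sdiff hAZ]
      unfold S
      rw [hx]
      congr 1
      · rw [← Finset.sum_add_distrib]
        exact Finset.sum_congr rfl fun x _ => hx _
      · rw [← Finset.sum_add_distrib]
        exact Finset.sum_congr rfl fun x _ => hx _
    have hAB : S W A (Z \ A) = ((A.filter (fun x => x + h ∈ Z \ A)).card : ℝ) * qf W h := by
      unfold S
      have h1 : ∀ x ∈ A, (∑ y ∈ Z \ A, if dist x y = 1 then qf W (y - x) else 0) =
          if x + h ∈ Z \ A then qf W h else 0 := by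
        intro x hx
        have h2 : ∀ y ∈ Z \ A, (if dist x y = 1 then qf W (y - x) else 0) =
            if x + h = y then qf W h else 0 := by
          intro y hy
          by_cases hxy : dist x y = 1
          · have := hcross x hx y hy hxy
            rw [if_pos hxy, if_pos this.symm, this, add_sub_cancel_left]
          · rw [if_neg hxy, if_neg]
            rintro rfl
            exact hxy (by simp [hh])
        rw [Finset.sum_congr rfl h2, Finset.sum_ite_eq]
      rw [Finset.sum_congr rfl h1, ← Finset.sum_filter, Finset.sum_const, nsmul_eq_mul]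
    unfold T
    rw [hS, S_comm W (Z \ A) A, hAB, hcard]
    ring

/-- the functional of a rank one matrix -/
lemma T_V1 {W : Matrix (Fin d) (Fin d) ℝ} (h : Fin d → ℝ) (A : Finset (E d)) :
    T (V1 W h) A = (h ⬝ᵥ (W *ᵥ h))⁻¹ * ((A.card : ℝ) * ‖(WithLp.toLp 2 (W *ᵥ h) : E d)‖ ^ 2 -
      (open Classical in ∑ x ∈ A, ∑ y ∈ A, (if dist x y = 1 then
        (inner ℝ (y - x) (WithLp.toLp 2 (W *ᵥ h) : E d)) ^ 2 else 0)) / 2) := by
  classical
  have h1 : (V1 W h).trace = (h ⬝ᵥ (W *ᵥ h))⁻¹ * ‖(WithLp.toLp 2 (W *ᵥ h) : E d)‖ ^ 2 := by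
    unfold V1
    rw [Matrix.trace_smul, Matrix.trace_vecMulVec, smul_eq_mul, ← real_inner_self_eq_norm_sq,
      inner_eq_dot]
  have h2 : S (V1 W h) A A = (h ⬝ᵥ (W *ᵥ h))⁻¹ * ∑ x ∈ A, ∑ y ∈ A, (if dist x y = 1 then
        (inner ℝ (y - x) (WithLp.toLp 2 (W *ᵥ h) : E d)) ^ 2 else 0) := by
    unfold S
    rw [Finset.mul_sum]
    refine Finset.sum_congr rfl fun x _ => ?_
    rw [Finset.mul_sum]
    refine Finset.sum_congr rfl fun y _ => ?_
    split_ifs
    · unfold qf
      rw [V1_quad, inner_eq_dot]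
    · simp
  unfold T
  rw [h1, h2]
  ring

/-- the rank one part dominates the crossing contacts -/
lemma T_V1_ge {Z A : Finset (E d)} (hZ : CS Z) (hA : A ⊆ Z) {k h : E d} (hk : ‖k‖ = 1)
    {W : Matrix (Fin d) (Fin d) ℝ} (hW : W.PosDef) (hh : h.ofLp ≠ 0)
    (hkh : (inner ℝ k (WithLp.toLp 2 (W *ᵥ h.ofLp) : E d)) ^ 2 = qf W h ^ 2) :
    (open Classical in ((A.filter (fun x => x + k ∈ Z \ A)).card : ℝ) * qf W h) ≤ T (V1 W h.ofLp) A := by
  classical
  have hc := posDef_pos hW hh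
  have h1 := outward hZ hA hk (WithLp.toLp 2 (W *ᵥ h.ofLp) : E d)
  rw [hkh] at h1
  rw [T_V1]
  have h2 : qf W h = h.ofLp ⬝ᵥ (W *ᵥ h.ofLp) := rfl
  rw [h2] at h1 ⊢
  rw [inv_mul_eq_div, le_div_iff₀ hc]
  calc _ = ((A.filter (fun x => x + k ∈ Z \ A)).card : ℝ) * (h.ofLp ⬝ᵥ (W *ᵥ h.ofLp)) ^ 2 := by ring
    _ ≤ _ := h1

/-- **the sharp inequality**: `T W Z ≥ d |Z| (det W / |Z|)^(1/d)` -/
theorem main : ∀ (n : ℕ) (Z : Finset (E d)), CS Z → Z.card = n → 0 < n →
    ∀ W : Matrix (Fin d) (Fin d) ℝ, W.PosDef →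
      (d : ℝ) * n * (W.det / n) ^ ((1 : ℝ) / d) ≤ T W Z := by
  classical
  intro n
  induction n using Nat.strong_induction_on with
  | _ n ih =>
    intro Z hZ hn hn0 W hW
    have hn' : (0 : ℝ) < n := by exact_mod_cast hn0
    have hn1 : (1 : ℝ) ≤ n := by exact_mod_cast hn0
    have hdet := hW.det_pos
    by_cases hc : ∃ x0 ∈ Z, ∃ h : E d, ‖h‖ = 1 ∧ x0 + h ∈ Z
    · obtain ⟨x0, hx0, h, hh, hx1⟩ := hc
      obtain ⟨A, hAZ, hx0A, hx1B, hcard, hT⟩ := split hZ hx0 hh hx1 W
      have hh0 : h.ofLp ≠ 0 := by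
        intro h0
        have : h = 0 := by ext i; simp [h0]
        rw [this] at hh; simp at hh
      set B := Z \ A with hB
      set e : ℝ := ((A.filter (fun x => x + h ∈ B)).card : ℝ) with he
      have hcardAB : A.card + B.card = n := by rw [hB, add_comm, Finset.card_sdiff_add_card_eq_card hAZ, hn]
      have ha0 : 0 < A.card := Finset.card_pos.mpr ⟨x0, hx0A⟩
      have hb0 : 0 < B.card := Finset.card_pos.mpr ⟨_, hx1B⟩
      have ha' : (0 : ℝ) < A.card := by exact_mod_cast ha0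
      have hb' : (0 : ℝ) < B.card := by exact_mod_cast hb0
      have hab : (A.card : ℝ) + B.card = n := by exact_mod_cast hcardAB
      have hBZ : B ⊆ Z := Finset.sdiff_subset
      have hin : inner ℝ h (WithLp.toLp 2 (W *ᵥ h.ofLp) : E d) = qf W h := by
        rw [inner_eq_dot]; rfl
      have hp : e * qf W h ≤ T (V1 W h.ofLp) A :=
        T_V1_ge hZ hAZ hh hW hh0 (by rw [hin])
      have hq : e * qf W h ≤ T (V1 W h.ofLp) B := by
        have := T_V1_ge (A := B) (k := -h) hZ hBZ (by rw [norm_neg]; exact hh) hW hh0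
          (by rw [inner_neg_left, hin, neg_sq])
        rw [he, hcard]
        exact this
      have hR : ∀ s : ℝ, W + (s - 1) • V1 W h.ofLp = (W + (-1 : ℝ) • V1 W h.ofLp) + s • V1 W h.ofLp := by
        intro s; rw [sub_smul, one_smul, neg_one_smul]; abel
      -- the two parts
      have hAA := ih A.card (by omega) A (hZ.mono hAZ) rfl ha0
        (W + ((A.card : ℝ) / n - 1) • V1 W h.ofLp) (posDef_s hW hh0 (by positivity))
      have hBB := ih B.card (by omega) B (hZ.mono hBZ) rfl hb0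
        (W + ((B.card : ℝ) / n - 1) • V1 W h.ofLp) (posDef_s hW hh0 (by positivity))
      rw [det_s hW hh0] at hAA hBB
      rw [hR, T_add_smul] at hAA hBB
      have e1 : (A.card : ℝ) / n * W.det / A.card = W.det / n := by field_simp
      have e2 : (B.card : ℝ) / n * W.det / B.card = W.det / n := by field_simp
      rw [e1] at hAA
      rw [e2] at hBB
      have hTZ := hT W
      have hWA : T W A = T (W + (-1 : ℝ) • V1 W h.ofLp) A + T (V1 W h.ofLp) A := by
        rw [T_add_smul]; ring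
      have hWB : T W B = T (W + (-1 : ℝ) • V1 W h.ofLp) B + T (V1 W h.ofLp) B := by
        rw [T_add_smul]; ring
      rw [hTZ, hWA, hWB]
      set p := T (V1 W h.ofLp) A
      set q := T (V1 W h.ofLp) B
      set R := (W.det / n) ^ ((1 : ℝ) / d)
      set a : ℝ := (A.card : ℝ)
      set b : ℝ := (B.card : ℝ)
      have h5 : (d : ℝ) * n * R = d * a * R + d * b * R := by rw [← hab]; ring
      rw [h5]
      have h6 : a / n + b / n = 1 := by rw [← add_div, hab, div_self hn'.ne']
      have h7 : 0 ≤ (b / n) * (p - e * qf W h) := mul_nonneg (by positivity) (by linarith)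
      have h8 : 0 ≤ (a / n) * (q - e * qf W h) := mul_nonneg (by positivity) (by linarith)
      have h9 : p + q - e * qf W h - (a / n) * p - (b / n) * q =
          (b / n) * (p - e * qf W h) + (a / n) * (q - e * qf W h) := by
        have : b / n = 1 - a / n := by linarith
        rw [this]; ring
      linarith
    · push Not at hc
      have hS0 : S W Z Z = 0 := by
        unfold S
        refine Finset.sum_eq_zero fun x hx => Finset.sum_eq_zero fun y hy => ?_
        rw [if_neg]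
        intro hxy
        refine hc x hx (y - x) ?_ (by rwa [add_sub_cancel])
        rw [← dist_eq_norm, dist_comm]; exact hxy
      unfold T
      rw [hS0, hn]
      have h1 := amgm W hW
      have h2 : (W.det / n) ^ ((1 : ℝ) / d) ≤ W.det ^ ((1 : ℝ) / d) := by
        refine Real.rpow_le_rpow (by positivity) ?_ (by positivity)
        exact div_le_self hdet.le hn1
      have h3 : (d : ℝ) * n * (W.det / n) ^ ((1 : ℝ) / d) ≤ n * (d * W.det ^ ((1 : ℝ) / d)) := by
        have : 0 ≤ (d : ℝ) * n := by positivity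
        nlinarith [mul_le_mul_of_nonneg_left h2 this]
      have h4 : (n : ℝ) * (d * W.det ^ ((1 : ℝ) / d)) ≤ n * W.trace :=
        mul_le_mul_of_nonneg_left h1 hn'.le
      linarith

end Pool.Agent.N334.SC
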