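import Pool.Agent.N334.SC.Main

set_option autoImplicit false

/-!
# Packings, total separability, contact numbers in `d`-space, and the upper bound
-/

open scoped Matrix
open Filter Topology

namespace Pool.Agent.N334.SC

variable {d : ℕ}

/-- `X` is the set of centres of a packing of balls of diameter one: different balls have disjoint interiors -/
def IsPacking (X : Finset (E d)) : Prop :=
  ∀ x ∈ X, ∀ y ∈ X, x ≠ y →
    Disjoint (interior (Metric.closedBall x (1 / 2))) (interior (Metric.closedBall y (1 / 2)))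

/-- any two members are separated by a hyperplane missing the interiors of all members -/
def IsTotallySeparable (X : Finset (E d)) : Prop :=
  ∀ x ∈ X, ∀ y ∈ X, x ≠ y → ∃ (v : E d) (t : ℝ), v ≠ 0 ∧
    (∀ p ∈ Metric.closedBall x (1 / 2 : ℝ), inner ℝ v p ≤ t) ∧
    (∀ p ∈ Metric.closedBall y (1 / 2 : ℝ), t ≤ inner ℝ v p) ∧
    (∀ z ∈ X, Disjoint {p : E d | inner ℝ v p = t} (interior (Metric.closedBall z (1 / 2))))

/-- a digital packing: all centres have integer coordinates -/
def IsDigital (X : Finset (E d)) : Prop := ∀ x ∈ X, ∀ a : Fin d, ∃ z : ℤ, x a = z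

/-- unordered pairs of distinct members that touch -/
def contactPairs (X : Finset (E d)) : Set (Sym2 (E d)) :=
  {e | ∃ x ∈ X, ∃ y ∈ X, x ≠ y ∧
    (Metric.closedBall x (1 / 2) ∩ Metric.closedBall y (1 / 2)).Nonempty ∧ e = s(x, y)}

/-- the contact number -/
noncomputable def contactNumber (X : Finset (E d)) : ℕ := (contactPairs X).ncard

lemma IsPacking.one_le_dist {X : Finset (E d)} (h : IsPacking X) {x y : E d} (hx : x ∈ X) (hy : y ∈ X)
    (hne : x ≠ y) : 1 ≤ dist x y := by
  have := h x hx y hy hne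
  rw [interior_closedBall _ (by norm_num), interior_closedBall _ (by norm_num),
    disjoint_ball_ball_iff (by norm_num) (by norm_num)] at this
  linarith

lemma touch_iff {x y : E d} : (Metric.closedBall x (1 / 2 : ℝ) ∩ Metric.closedBall y (1 / 2)).Nonempty ↔
    dist x y ≤ 1 := by
  rw [← Set.not_disjoint_iff_nonempty_inter,
    disjoint_closedBall_closedBall_iff (by norm_num) (by norm_num), not_lt]
  norm_num

lemma IsTotallySeparable.cs {X : Finset (E d)} (h : IsTotallySeparable X) : CS X := by
  intro x hx u hu hxu z hz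
  have hu0 : u ≠ 0 := by rintro rfl; rw [norm_zero] at hu; norm_num at hu
  obtain ⟨v, t, hv, h1, h2, h3⟩ := h x hx (x + u) hxu (by
    intro h; exact hu0 (by simpa using h.symm))
  have hvn : 0 < ‖v‖ := norm_pos_iff.mpr hv
  have hself : inner ℝ v v = ‖v‖ ^ 2 := real_inner_self_eq_norm_sq v
  -- support points
  have s1 : inner ℝ v x + ‖v‖ / 2 ≤ t := by
    have := h1 (x + (1 / (2 * ‖v‖)) • v) (by
      rw [Metric.mem_closedBall, dist_eq_norm, add_sub_cancel_left, norm_smul, Real.norm_eq_abs,
        abs_of_pos (by positivity)]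
      apply le_of_eq; field_simp)
    rw [inner_add_right, real_inner_smul_right, hself] at this
    have e : 1 / (2 * ‖v‖) * ‖v‖ ^ 2 = ‖v‖ / 2 := by field_simp
    linarith
  have s2 : t ≤ inner ℝ v x + inner ℝ v u - ‖v‖ / 2 := by
    have := h2 (x + u - (1 / (2 * ‖v‖)) • v) (by
      rw [Metric.mem_closedBall, dist_eq_norm, sub_sub_cancel_left, norm_neg, norm_smul,
        Real.norm_eq_abs, abs_of_pos (by positivity)]
      apply le_of_eq; field_simp)
    rw [inner_sub_right, inner_add_right, real_inner_smul_right, hself] at this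
    have e : 1 / (2 * ‖v‖) * ‖v‖ ^ 2 = ‖v‖ / 2 := by field_simp
    linarith
  have hcs : inner ℝ v u ≤ ‖v‖ * ‖u‖ := real_inner_le_norm v u
  have heq : inner ℝ v u = ‖v‖ * ‖u‖ := by
    apply le_antisymm hcs
    rw [hu]; linarith
  have hvu : v = ‖v‖ • u := by
    have := inner_eq_norm_mul_iff_real.mp heq
    rw [hu, one_smul] at this
    exact this
  have ht : t = inner ℝ v x + ‖v‖ / 2 := by
    rw [hu] at heq; linarith
  by_contra hcon
  push Not at hcon
  obtain ⟨c1, c2⟩ := hcon
  have hz' := h3 z hz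
  rw [interior_closedBall _ (by norm_num), Set.disjoint_left] at hz'
  have hvz : inner ℝ v z = inner ℝ v x + ‖v‖ * inner ℝ (z - x) u := by
    have : inner ℝ v z = inner ℝ v x + inner ℝ v (z - x) := by
      rw [← inner_add_right]; congr 1; abel
    rw [this]
    congr 1
    conv_lhs => rw [hvu]
    rw [real_inner_smul_left, real_inner_comm]
  apply hz' (a := z + ((t - inner ℝ v z) / ‖v‖ ^ 2) • v)
  · rw [Set.mem_ofPred_eq, inner_add_right, real_inner_smul_right, hself]
    field_simp; ring
  · rw [Metric.mem_ball, dist_eq_norm, add_sub_cancel_left, norm_smul, Real.norm_eq_abs]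
    have e1 : t - inner ℝ v z = ‖v‖ * (1 / 2 - inner ℝ (z - x) u) := by
      rw [ht, hvz]; ring
    rw [e1]
    have e2 : ‖v‖ * (1 / 2 - inner ℝ (z - x) u) / ‖v‖ ^ 2 = (1 / 2 - inner ℝ (z - x) u) / ‖v‖ := by
      field_simp
    rw [e2, abs_div, abs_of_pos hvn, div_mul_cancel₀ _ hvn.ne', abs_lt]
    constructor <;> linarith

open Classical in
/-- ordered contacts -/
noncomputable def ordered (X : Finset (E d)) : Finset (E d × E d) :=
  (X ×ˢ X).filter (fun p => dist p.1 p.2 = 1)

/-- every contact is counted twice -/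
lemma card_ordered {X : Finset (E d)} (h : IsPacking X) : (ordered X).card = 2 * contactNumber X := by
  classical
  have h1 : contactPairs X = ((ordered X).image (fun p => s(p.1, p.2)) : Set (Sym2 (E d))) := by
    ext e
    simp only [contactPairs, Set.mem_ofPred_eq, Finset.coe_image, Set.mem_image, Finset.mem_coe]
    constructor
    · rintro ⟨x, hx, y, hy, hne, ht, rfl⟩
      refine ⟨(x, y), Finset.mem_filter.mpr ⟨Finset.mk_mem_product hx hy, ?_⟩, rfl⟩
      exact le_antisymm (touch_iff.mp ht) (h.one_le_dist hx hy hne)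
    · rintro ⟨⟨x, y⟩, hp, rfl⟩
      obtain ⟨hp1, hp2⟩ := Finset.mem_filter.mp hp
      obtain ⟨hx, hy⟩ := Finset.mem_product.mp hp1
      simp only at hx hy hp2
      refine ⟨x, hx, y, hy, ?_, touch_iff.mpr hp2.le, rfl⟩
      rintro rfl
      rw [dist_self] at hp2
      norm_num at hp2
  unfold contactNumber
  rw [h1, Set.ncard_coe_finset]
  rw [Finset.card_eq_sum_card_image (fun p : E d × E d => s(p.1, p.2)) (ordered X)]
  rw [Finset.sum_const_nat (m := 2), mul_comm]
  intro b hb
  obtain ⟨⟨x, y⟩, hp, rfl⟩ := Finset.mem_image.mp hb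
  obtain ⟨hp1, hp2⟩ := Finset.mem_filter.mp hp
  obtain ⟨hx, hy⟩ := Finset.mem_product.mp hp1
  simp only at hx hy hp2
  have hne : x ≠ y := by
    rintro rfl
    rw [dist_self] at hp2
    norm_num at hp2
  have h2 : (ordered X).filter (fun p : E d × E d => s(p.1, p.2) = s(x, y)) = {(x, y), (y, x)} := by
    ext ⟨p, q⟩
    simp only [Finset.mem_filter, Finset.mem_insert, Finset.mem_singleton, Prod.mk.injEq, Sym2.eq_iff]
    constructor
    · rintro ⟨-, h⟩; exact h
    · rintro (⟨rfl, rfl⟩ | ⟨rfl, rfl⟩)
      · exact ⟨hp, Or.inl ⟨rfl, rfl⟩⟩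
      · refine ⟨Finset.mem_filter.mpr ⟨Finset.mk_mem_product hy hx, ?_⟩, Or.inr ⟨rfl, rfl⟩⟩
        simp only
        rw [dist_comm]; exact hp2
  rw [h2, Finset.card_pair]
  intro h
  exact hne (Prod.mk.inj h).1

/-- the functional for `W = 1` is `d n` minus the contact number -/
lemma T_one {X : Finset (E d)} (h : IsPacking X) :
    T 1 X = (d : ℝ) * X.card - contactNumber X := by
  classical
  have h1 : S 1 X X = ((ordered X).card : ℝ) := by
    unfold S ordered
    rw [← Finset.sum_product', Finset.card_filter, Nat.cast_sum]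
    refine Finset.sum_congr rfl fun p _ => ?_
    split_ifs with hp
    · rw [qf_one, ← dist_eq_norm, dist_comm, hp]; norm_num
    · simp
  unfold T
  rw [h1, card_ordered h, Matrix.trace_one, Fintype.card_fin]
  push_cast
  ring

/-- **the sharp upper bound for contact numbers of totally separable packings, in every dimension** -/
theorem contacts_le {X : Finset (E d)} (hd : 1 ≤ d) (h : IsPacking X) (hs : IsTotallySeparable X)
    (hne : X.Nonempty) :
    (contactNumber X : ℝ) ≤ d * X.card - d * (X.card : ℝ) ^ (((d : ℝ) - 1) / d) := by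
  have hn : 0 < X.card := hne.card_pos
  have hn' : (0 : ℝ) < X.card := by exact_mod_cast hn
  have hd' : (0 : ℝ) < d := by exact_mod_cast hd
  have h1 := main X.card X hs.cs rfl hn 1 Matrix.PosDef.one
  rw [T_one h, Matrix.det_one] at h1
  have h2 : (X.card : ℝ) * (1 / (X.card : ℝ)) ^ ((1 : ℝ) / d) = (X.card : ℝ) ^ (((d : ℝ) - 1) / d) := by
    rw [one_div (X.card : ℝ), Real.inv_rpow hn'.le, ← Real.rpow_neg hn'.le]
    nth_rewrite 1 [← Real.rpow_one (X.card : ℝ)]
    rw [← Real.rpow_add hn']
    congr 1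
    field_simp
    ring
  rw [mul_assoc, h2] at h1
  linarith

end Pool.Agent.N334.SC
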